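import Pool.Agent.K4H12.R210.Small

open MeasureTheory ProbabilityTheory
open scoped ENNReal unitInterval
open Pool.Agent.K4H12.R210

namespace Pool.Agent.Results.MP_c6a9e6_pr.LinearRelaxation

/-- The relaxation time of the `α`-asynchronous rule 210 is at most linear in the size of the
ring, with an explicit dependence on `α`. -/
theorem linear (α : I) (h0 : 0 < (α : ℝ)) (h1 : (α : ℝ) < 1) (n : ℕ) [NeZero n] (hn : 3 ≤ n) :
    relaxTime n α ≤ ENNReal.ofReal (600 * n / ((α : ℝ) ^ 2 * (1 - α) ^ 3)) := by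
  have hb : 0 < 1 - (α : ℝ) := by linarith
  refine iSup_le fun x => ?_
  rcases Nat.lt_or_ge n 4 with h4 | h4
  · obtain rfl : n = 3 := by omega
    have hc : 0 < (α : ℝ) * (1 - α) := by positivity
    refine (foster α (V3 (α : ℝ)) _ hc (fun y => (V3_bd h0 h1 y).1)
      (fun y hy => ?_) x).trans (ENNReal.ofReal_le_ofReal ?_)
    · have := drift3 h0 h1 y hy
      convert this
    · have hv := (V3_bd h0 h1 x).2
      rw [div_le_div_iff₀ hc (by positivity)]
      have e1 : (α : ℝ) ^ 2 * (1 - α) ^ 3 = ((α : ℝ) * (1 - α)) * ((α : ℝ) * (1 - α) ^ 2) := by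
        ring
      have e2 : (α : ℝ) * (1 - α) ^ 2 ≤ 1 :=
        mul_le_one₀ h1.le (by positivity) (pow_le_one₀ hb.le (by linarith))
      have e3 : (α : ℝ) ^ 2 * (1 - α) ^ 3 ≤ (α : ℝ) * (1 - α) := by
        rw [e1]
        exact mul_le_of_le_one_right hc.le e2
      have e4 : 0 < (α : ℝ) ^ 2 * (1 - α) ^ 3 := by positivity
      push_cast
      nlinarith
  · have hc : 0 < 2 * (α : ℝ) ^ 2 * (1 - α) ^ 3 := by positivity
    have hn0 : (0 : ℝ) ≤ n := Nat.cast_nonneg _
    refine (foster α (fun y => V0 (α : ℝ) y + 324 * n) _ hc (fun y => ?_)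
      (fun y hy => ?_) x).trans (ENNReal.ofReal_le_ofReal ?_)
    · have := (V0_bd h0 h1 y).1
      linarith
    · have h5 := drift h4 h0 h1 y hy
      have h6 : ∑ u, W (α : ℝ) u * (V0 (α : ℝ) (step y u) + 324 * n)
          = ∑ u, W (α : ℝ) u * V0 (α : ℝ) (step y u) + 324 * n := by
        simp only [mul_add]
        rw [Finset.sum_add_distrib, ← Finset.sum_mul, sum_W, one_mul]
      rw [h6]
      linarith
    · have hv := (V0_bd h0 h1 x).2
      have e4 : 0 < (α : ℝ) ^ 2 * (1 - α) ^ 3 := by positivity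
      rw [show 2 * (α : ℝ) ^ 2 * (1 - α) ^ 3 = 2 * ((α : ℝ) ^ 2 * (1 - α) ^ 3) by ring,
        div_le_div_iff₀ (by positivity) e4]
      nlinarith

/-- Q1 is true: for every `α ∈ (0,1)` the relaxation time of the `α`-asynchronous rule 210 is
polynomially bounded; in fact `R_α(n) ≤ 600 n / (α² (1-α)³)` for all `n ≥ 3`. -/
theorem result (α : I) (h0 : 0 < (α : ℝ)) (h1 : (α : ℝ) < 1) (n : ℕ) [NeZero n] (hn : 3 ≤ n) :
    relaxTime n α ≤ ENNReal.ofReal (600 * n / ((α : ℝ) ^ 2 * (1 - α) ^ 3)) :=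
  linear α h0 h1 n hn

end Pool.Agent.Results.MP_c6a9e6_pr.LinearRelaxation
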